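import Pool.Agent.IrrCay.Compact

/-! # Compactness of embeddability in irreducible Cayley graphs -/

set_option autoImplicit false

namespace Pool.Agent.Results.MP_552e6e_co.Compactness

universe u

/-- A graph is isomorphic to an induced subgraph of a Cayley graph of a group with respect to an
irreducible generating set if and only if all its finite induced subgraphs are. -/
theorem result {V : Type u} (Y : SimpleGraph V) :
    IrrCay.Emb.{u} Y ↔ ∀ s : Finset V, IrrCay.Emb.{u} (Y.induce (s : Set V)) := by
  constructor
  · intro h s
    exact IrrCay.emb_iso (SimpleGraph.Embedding.induce _) h
  · exact IrrCay.emb_compact Y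

end Pool.Agent.Results.MP_552e6e_co.Compactness
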