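import Pool.Agent.IrrCay.Universality
import Pool.Agent.IrrCay.BS23

/-! # A finite graph that embeds only in Cayley graphs of groups that are not residually finite -/

set_option autoImplicit false

namespace Pool.Agent.Results.MP_552e6e_co.InfiniteOnly

universe u v

/-- There is a finite graph that is an induced subgraph of an irreducible Cayley graph, but such
that every group `G` with this property contains a nontrivial element that every homomorphism of
`G` to a finite group kills. In particular `G` is infinite and not residually finite. -/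
theorem result : ∃ p : ℕ × List (ℕ × ℕ), IrrCay.Emb.{u} (IrrCay.ofCode p) ∧
    ∀ (G : Type v) [Group G] (H : Set G), IrrCay.Irr G H →
      Nonempty (IrrCay.ofCode p ↪g IrrCay.X G H) →
      ∃ g : G, g ≠ 1 ∧ ∀ (F : Type) [Group F] [Finite F] (q : G →* F), q g = 1 := by
  obtain ⟨p, hp, h⟩ := IrrCay.universality.{u, v} ({IrrCay.bsRel} : Set (FreeGroup (Fin 2)))
    (Set.finite_singleton _) IrrCay.bsElt IrrCay.bsElt_notMem
  refine ⟨p, hp, ?_⟩
  intro G _ H hH he
  obtain ⟨f, hf, hne⟩ := h G H hH he
  refine ⟨f IrrCay.bsElt, hne, ?_⟩
  intro F _ _ q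
  have h1 := IrrCay.bs_finite (q.comp f)
    (by rw [MonoidHom.comp_apply, hf _ (Set.mem_singleton _), map_one])
  rwa [MonoidHom.comp_apply] at h1

end Pool.Agent.Results.MP_552e6e_co.InfiniteOnly
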