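import Pool.Agent.IrrCay.Reduction
import Pool.Agent.IrrCay.NB3
import Pool.Agent.IrrCay.CoRE

/-! # The finite graphs that embed in irreducible Cayley graphs are not recursively enumerable -/

set_option autoImplicit false

namespace Pool.Agent.Results.MP_552e6e_co.NotEnumerable

universe u

/-- The set of (codes of) finite graphs that are isomorphic to an induced subgraph of a Cayley
graph of a group with respect to an irreducible generating set is not recursively enumerable, and
its complement is recursively enumerable. -/
theorem result :
    (¬ REPred fun p : ℕ × List (ℕ × ℕ) => IrrCay.Emb.{u} (IrrCay.ofCode p)) ∧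
    REPred fun p : ℕ × List (ℕ × ℕ) => ¬ IrrCay.Emb.{u} (IrrCay.ofCode p) := by
  obtain ⟨m, rels, w, hm, hw, hρ, hn⟩ := IrrCay.nb3
  exact ⟨IrrCay.not_re_of_word hm rels w hw hρ hn, IrrCay.emb_co_re⟩

end Pool.Agent.Results.MP_552e6e_co.NotEnumerable
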