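import Pool.Agent.IrrCay.Universality

/-! # Universality of the finite graphs that embed in irreducible Cayley graphs -/

set_option autoImplicit false

namespace Pool.Agent.Results.MP_552e6e_co.Universality

universe u v

/-- For every finitely presented group `Γ = ⟨I | R⟩` and every nontrivial element `g` of `Γ` there
is a finite graph that is an induced subgraph of an irreducible Cayley graph, such that every group
`G` with this property admits a homomorphism from `Γ` that does not kill `g`. -/
theorem result {I : Type} [Finite I] (R : Set (FreeGroup I)) (hR : R.Finite)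
    (g : FreeGroup I) (hg : g ∉ Subgroup.normalClosure R) :
    ∃ p : ℕ × List (ℕ × ℕ), IrrCay.Emb.{u} (IrrCay.ofCode p) ∧
      ∀ (G : Type v) [Group G] (H : Set G), IrrCay.Irr G H →
        Nonempty (IrrCay.ofCode p ↪g IrrCay.X G H) →
        ∃ f : FreeGroup I →* G, (∀ x ∈ R, f x = 1) ∧ f g ≠ 1 :=
  IrrCay.universality R hR g hg

end Pool.Agent.Results.MP_552e6e_co.Universality
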